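import Mathlib

namespace Pool.Agent.Results.MP_17a11e_co.Fourteen

open Classical

/-- Every line `a x + b y = c` (with `a, b` fixed, `c` arbitrary) contains no point or exactly two
points of `S`. -/
def TwoOrNone (S : Finset (ℝ × ℝ)) (a b : ℝ) : Prop :=
  ∀ c : ℝ, (S.filter fun p => a * p.1 + b * p.2 = c).card = 0 ∨
    (S.filter fun p => a * p.1 + b * p.2 = c).card = 2

/-- Admissible for the horizontal, vertical, slope `1` and slope `-1` directions with `r = 2`. -/
def Admissible (S : Finset (ℝ × ℝ)) : Prop :=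
  S.Nonempty ∧ TwoOrNone S 0 1 ∧ TwoOrNone S 1 0 ∧ TwoOrNone S 1 (-1) ∧ TwoOrNone S 1 1

def S0 : Finset (ℤ × ℤ) := {(0, 1), (0, 4), (1, 0), (1, 4), (3, 1), (3, 7), (4, 5), (4, 7), (5, 0),
  (5, 3), (6, 2), (6, 5), (7, 2), (7, 3)}

def emb : ℤ × ℤ ↪ ℝ × ℝ := ⟨fun p => (p.1, p.2), fun p q h => by
  simp only [Prod.mk.injEq, Int.cast_inj] at h
  exact Prod.ext h.1 h.2⟩

lemma key (a b : ℤ)
    (h : ∀ q ∈ S0, (S0.filter fun p => a * p.1 + b * p.2 = a * q.1 + b * q.2).card = 2) :
    TwoOrNone (S0.map emb) a b := by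
  intro c
  by_cases h0 : ((S0.map emb).filter fun p => a * p.1 + b * p.2 = c).card = 0
  · exact Or.inl h0
  · right
    obtain ⟨p, hp⟩ := Finset.card_pos.1 (Nat.pos_of_ne_zero h0)
    obtain ⟨hp1, rfl⟩ := Finset.mem_filter.1 hp
    obtain ⟨q, hq, rfl⟩ := Finset.mem_map.1 hp1
    rw [Finset.filter_map, Finset.card_map, ← h q hq]
    congr 1
    refine Finset.filter_congr fun p _ => ?_
    simp only [Function.comp, emb, Function.Embedding.coeFn_mk]
    norm_cast

/-- There is an admissible set of exactly `14` points. -/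
theorem result : ∃ S : Finset (ℝ × ℝ), S.card = 14 ∧ Admissible S := by
  refine ⟨S0.map emb, by rw [Finset.card_map]; decide, ⟨emb (0, 1), Finset.mem_map_of_mem _ (by decide)⟩,
    ?_, ?_, ?_, ?_⟩
  · simpa using key 0 1 (by decide)
  · simpa using key 1 0 (by decide)
  · simpa using key 1 (-1) (by decide)
  · simpa using key 1 1 (by decide)

end Pool.Agent.Results.MP_17a11e_co.Fourteen
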